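import Pool.Agent.Q40.MI.Final

/-!
# Super-exponential condensation without exact overlaps for analytic IFSs

For every `ε > 0` there is an analytic IFS with super-exponential condensation, without exact
overlaps, which is not sub-conjugated to a self-similar IFS. The definitions (`AnalyticIFS`, `comp`,
`ESC`, `ExactOverlap`, `SubConjugated`) are in `Pool.Agent.Q40.MI.IFS`.

The example consists of Möbius maps. The base maps are `x ↦ l/q + ρ x / (1 + (l/Q) x)`,
`0 ≤ l < 1000`; their matrices `A_l` are, up to scaling, integer matrices of rank one modulo a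
large prime `p`, with different kernels and images, so that no two different words of the same
length have a common eigenvector. By the pigeonhole principle there are `u ≠ v` of the same length
with `A_u⁻¹ A_v` as close to the identity as desired, and these elements are Zariski dense in `SL₂`,
even in every neighbourhood of the identity. Two more maps are limits of maps `A_a⁻¹ A_b` with
`|b| = |a| + 1`, constructed alternately, so that one of the two satisfies a relation
`f_a ∘ f_s = f_b` up to a super-exponentially small error at every length; by Zariski density all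
(countably many) coincidences of a fixed point for two different words of the same length are
avoided.
-/

namespace Pool.Agent.Results.MP_6f21ce_an.NotSubConjugated

open Pool.Agent.Q40.MI Set

/-- **There are analytic IFSs with super-exponential condensation and without exact overlap that are
not sub-conjugated to a self-similar IFS**, for every `ε > 0`. -/
theorem result (ε : ℝ) (hε : 0 < ε) :
    ∃ (m : ℕ) (Φ : AnalyticIFS ε m), ¬ ESC Φ.f ∧ ¬ ExactOverlap Φ.f ∧ ¬ SubConjugated Φ.f := by
  obtain ⟨A, hA, hsub, hov, hsup⟩ := exists_family hε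
  have hcard : Fintype.card (Fin 1000 ⊕ Bool) = 1002 := by simp
  let e : Fin 1002 ≃ Fin 1000 ⊕ Bool := (Fintype.equivFinOfCardEq hcard).symm
  let Φ : AnalyticIFS ε 1002 :=
    { f := fun i => mob (A (e i))
      F := fun i => cmob (A (e i))
      two_le := by norm_num
      ext := fun i x => cmob_ofReal _ x
      analytic := fun i => (hA (e i)).analytic hε
      maps_I := fun i x hx => (hA (e i)).ps.maps hx
      maps_B := fun i z hz => (hA (e i)).maps_B hε hz
      deriv_pos := fun i z hz => ((hA (e i)).deriv_bounds hε hz).1
      deriv_lt := fun i z hz => ((hA (e i)).deriv_bounds hε hz).2 }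
  have hcomp : ∀ w : List (Fin 1002), comp Φ.f w = comp (fun l => mob (A l)) (w.map e) :=
    fun w => comp_map (fun l => mob (A l)) e w
  have hcomp' : ∀ w : List (Fin 1000 ⊕ Bool), comp Φ.f (w.map e.symm) = comp (fun l => mob (A l)) w := by
    intro w
    rw [hcomp, List.map_map]
    simp
  have hinj : ∀ {u v : List (Fin 1002)}, u ≠ v → u.map e ≠ v.map e :=
    fun h h' => h (List.map_injective_iff.mpr e.injective h')
  refine ⟨1002, Φ, ?_, ?_, ?_⟩
  · rintro ⟨c, hc, hfr⟩
    obtain ⟨n₀, hn₀⟩ := hsup c hc
    obtain ⟨n, hn, hcn⟩ := Filter.frequently_atTop.mp hfr n₀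
    obtain ⟨u, v, hu, hv, hne, B, hB, hx⟩ := hn₀ n hn
    have h1 := hcn (u.map e.symm) (v.map e.symm) (by simpa using hu) (by simpa using hv)
      (fun h => hne (List.map_injective_iff.mpr e.symm.injective h))
    rw [hcomp', hcomp'] at h1
    have : Nonempty (Icc (0 : ℝ) 1) := ⟨⟨0, by simp⟩⟩
    have h2 : (⨆ x : Icc (0 : ℝ) 1, |comp (fun l => mob (A l)) u x - comp (fun l => mob (A l)) v x|) ≤ B :=
      ciSup_le fun x => hx x x.2
    linarith
  · rintro ⟨u, v, hne, h⟩
    exact hov ⟨u.map e, v.map e, hinj hne, by rw [← hcomp, ← hcomp]; exact h⟩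
  · rintro ⟨u, v, hne, hl, g, l₁, l₂, t₁, t₂, h1, h2, h3, h4, h5, h6⟩
    exact hsub ⟨u.map e, v.map e, hinj hne, by simpa using hl, g, l₁, l₂, t₁, t₂, h1, h2, h3, h4,
      by rw [← hcomp]; exact h5, by rw [← hcomp]; exact h6⟩

end Pool.Agent.Results.MP_6f21ce_an.NotSubConjugated
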